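import Pool.Agent.Helper22.MI.All
import Pool.Agent.Helper22.MI.Pub

namespace Pool.Agent.Results.MP_e361f4_lc.MixedInteger

open Pool.Agent.Helper22.MIPub

/-- Mixed-integer semidefinite (in particular linear) programs for the planar Euclidean travelling
salesman problem need exponential size or many integer variables. Let `Q` be a spectrahedron of
size `r`, in any number of variables and with any number of equations, and let the points of `Q`
at which `k` given affine functions take integer values solve the planar Euclidean travelling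
salesman problem on `n` labelled cities up to the additive error `δ`, for all placements on distinct
points of `{0, …, R}²`, with an objective that may depend on the placement in an arbitrary way. If
`R ≥ C (n + δ) n⁴` and `n` is large then `(r + 1) n ^ (C k) ≥ 2 ^ (c n ^ (2/11))`. -/
theorem result : ∃ (c : ℝ) (C n₀ : ℕ), 0 < c ∧ ∀ (n r k R : ℕ) (δ : ℝ), n₀ ≤ n → 0 ≤ δ →
    (C : ℝ) * ((n + δ) * (n : ℝ) ^ 4) ≤ R →
    ∀ (d : ℕ) (Q : Set (Fin d → ℝ)) (p : Fin k → Fin d → ℝ) (p₀ : Fin k → ℝ),
    IsSDP Q r → Solves (MixInt Q p p₀) n R δ →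
      (2 : ℝ) ^ (c * (n : ℝ) ^ (2 / 11 : ℝ)) ≤ (r + 1) * (n : ℝ) ^ (C * k) := by
  obtain ⟨c, C, n₀, hc, h⟩ := Pool.Agent.Helper22.MI.fin_all
  exact ⟨c, C, n₀, hc, fun n r k R δ hn hδ hR d Q p p₀ hQ hS =>
    (h n r k R δ hn hδ hR d Q p p₀ hS).2 hQ⟩

end Pool.Agent.Results.MP_e361f4_lc.MixedInteger
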