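import Pool.Agent.Helper38.MR.F
import Pool.Agent.Helper38.MR.W
import Pool.Agent.Helper41.MR.CORE
import Pool.Agent.Helper33.MR.CI
import Pool.Agent.Helper59.MR.P
import Pool.Agent.Helper50.MR.N
import Pool.Agent.Helper50.MR.Q
import Pool.Agent.Helper91.MR.CP
import Pool.Agent.Helper34.MR.G
import Pool.Agent.Helper28.MR.I

set_option autoImplicit false

namespace Pool.Agent.Results.MP_e361f4_lc.MonotoneRealLower

open Pool.Agent.Helper38.MR

/-- Monotone real circuits over the pairwise distances of `n` points of the plane which solve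
Euclidean TSP, even only approximately, have exponential size. -/
theorem result : ∃ (c : ℝ) (k n₀ : ℕ), 0 < c ∧ ∀ n : ℕ, n₀ ≤ n → ∃ B : ℝ, 0 < B ∧
    ∀ C : List (Gate (Fin n × Fin n)), (∀ g ∈ C, g.Mono) →
      Separates C (n ^ k) B (1 / (n : ℝ) ^ k) →
      Real.exp (c * (n : ℝ) ^ (1 / 12 : ℝ)) ≤ C.length :=
  F (Pool.Agent.Helper41.MR.CORE P Pool.Agent.Helper50.MR.N Pool.Agent.Helper91.MR.CP
      Pool.Agent.Helper91.MR.CN CI)
    (Pool.Agent.Helper28.MR.I W Pool.Agent.Helper50.MR.Q Pool.Agent.Helper34.MR.G)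
    Pool.Agent.Helper91.MR.MON

end Pool.Agent.Results.MP_e361f4_lc.MonotoneRealLower
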