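import Pool.Agent.Helper96.SE.All2

set_option autoImplicit false

namespace Pool.Agent.Results.MP_e361f4_lc.SubtourBranchAndCut

open Pool.Agent.Helper31.BC Pool.Agent.Helper96.SE

/-- There is `k` such that for every `0 < δ < 1 / 14` and all large `n` there are `n` points of
`{0, …, n ^ k} ^ 2` and an integer `B` such that every tour has length at least
`(1 + n ^ (-k)) * B`, and branch-and-cut proofs from the subtour elimination inequalities that
there is no tour of length at most `B` exist, but all of them have at least `exp (n ^ δ)` nodes,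
even if all subtour inequalities of sets of at most `n ^ (1 - 7 * δ)` cities are free. -/
theorem result : ∃ k : ℕ, ∀ δ : ℝ, 0 < δ → δ < 1 / 14 → ∃ n₀ : ℕ, ∀ n : ℕ, n₀ ≤ n →
    ∃ (P : Fin n → ℤ × ℤ) (B : ℕ), 0 < B ∧ Placement (n ^ k) P ∧
      (∀ σ, (1 + 1 / (n : ℝ) ^ k) * B ≤ tourLen P σ) ∧
      (∃ t, Refutes (LongTwoFactor P B ((n : ℝ) ^ (1 - 7 * δ))) (Subtours n) t) ∧
      ∀ t, Refutes (LongTwoFactor P B ((n : ℝ) ^ (1 - 7 * δ))) (Subtours n) t →
        Real.exp ((n : ℝ) ^ δ) ≤ t :=
  all_FINAL2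

end Pool.Agent.Results.MP_e361f4_lc.SubtourBranchAndCut
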