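import Pool.Agent.Helper52.ES.All
import Pool.Agent.Helper52.Grid.Final

set_option autoImplicit false

namespace Pool.Agent.Results.MP_e361f4_lc.Completeness

open Pool.Agent.Helper52.ETSP
open Pool.Agent.Helper52.ES (ESR Reduces)

/-- EXACT EUCLIDEAN TSP is complete for existential square-root-sum problems: a decision problem is
polynomial-time many-one reducible to it if and only if it is such a problem.  Consequently it has
no deterministic polynomial-time decider if and only if P ≠ NP or PLANAR SUM OF SQUARE ROOTS is not
in P. -/
theorem result :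
    (∀ (α : Type) [Pool.Agent.Helper52.Poly.Enc α],
      Function.Injective (Pool.Agent.Helper52.Poly.code : α → List Bool) →
      ∀ L : α → Prop, ESR L ↔ Reduces L Instance.Yes) ∧
    (¬ Pool.Agent.Helper52.Poly.InP Instance.Yes ↔
      (¬ Pool.Agent.Helper53.CL.PEqNP ∨ ¬ Pool.Agent.Helper52.Poly.InP SSR)) :=
  ⟨fun α _ h L => Pool.Agent.Helper52.ES.complete α h L, by
    rw [Pool.Agent.Helper52.Grid.inP_iff_pEqNP_and, not_and_or]⟩

end Pool.Agent.Results.MP_e361f4_lc.Completeness
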